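import Pool.Agent.helper8.GD.Spec

/-!
# Project GD, module BV: the Bombieri-Vinogradov theorem from BV3 and BV4
-/

set_option autoImplicit false

namespace GD

open Finset ArithmeticFunction

/-! ## The sum of the inverses of the totients -/

lemma BV_prod (S : Finset ℕ) : (∀ p ∈ S, 2 ≤ p) → ∏ p ∈ S, p ≤ (#S + 1) * ∏ p ∈ S, (p - 1) := by
  induction S using Finset.induction_on_max with
  | empty => intro _; simp
  | insert p S hmax ih =>
    intro h
    have hpS : p ∉ S := fun hp => lt_irrefl _ (hmax p hp)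
    have h2 : ∀ q ∈ S, 2 ≤ q := fun q hq => h q (mem_insert_of_mem hq)
    have hp2 : 2 ≤ p := h p (mem_insert_self _ _)
    have hcard : #S + 2 ≤ p := by
      have hsub : S ⊆ Ico 2 p := fun q hq => mem_Ico.mpr ⟨h2 q hq, hmax q hq⟩
      have := card_le_card hsub
      rw [Nat.card_Ico] at this
      omega
    rw [prod_insert hpS, prod_insert hpS, card_insert_of_notMem hpS]
    have h3 : p * (#S + 1) ≤ (#S + 1 + 1) * (p - 1) := by
      obtain ⟨q, rfl⟩ : ∃ q, p = q + 1 := ⟨p - 1, by omega⟩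
      rw [Nat.add_sub_cancel]
      nlinarith
    calc p * ∏ q ∈ S, q ≤ p * ((#S + 1) * ∏ q ∈ S, (q - 1)) := Nat.mul_le_mul_left _ (ih h2)
      _ = (p * (#S + 1)) * ∏ q ∈ S, (q - 1) := by ring
      _ ≤ ((#S + 1 + 1) * (p - 1)) * ∏ q ∈ S, (q - 1) := Nat.mul_le_mul_right _ h3
      _ = (#S + 1 + 1) * ((p - 1) * ∏ q ∈ S, (q - 1)) := by ring

lemma BV_omega (n : ℕ) (hn : 0 < n) : n.primeFactors.card ≤ Nat.log 2 n := by
  refine Nat.le_log_of_pow_le (by norm_num) ?_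
  calc 2 ^ n.primeFactors.card = ∏ _p ∈ n.primeFactors, 2 := by rw [prod_const]
    _ ≤ ∏ p ∈ n.primeFactors, p :=
        prod_le_prod' fun p hp => (Nat.prime_of_mem_primeFactors hp).two_le
    _ ≤ n := Nat.le_of_dvd hn (Nat.prod_primeFactors_dvd n)

lemma BV_phi (n : ℕ) (hn : 0 < n) : n ≤ (Nat.log 2 n + 1) * Nat.totient n := by
  have h1 := Nat.totient_mul_prod_primeFactors n
  have h2 := BV_prod n.primeFactors fun p hp => (Nat.prime_of_mem_primeFactors hp).two_le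
  have h4 : 0 < ∏ p ∈ n.primeFactors, (p - 1) :=
    prod_pos fun p hp => Nat.sub_pos_of_lt (Nat.prime_of_mem_primeFactors hp).one_lt
  have h5 : n * ∏ p ∈ n.primeFactors, (p - 1)
      ≤ ((n.primeFactors.card + 1) * Nat.totient n) * ∏ p ∈ n.primeFactors, (p - 1) := by
    calc n * ∏ p ∈ n.primeFactors, (p - 1) = Nat.totient n * ∏ p ∈ n.primeFactors, p := h1.symm
      _ ≤ Nat.totient n * ((n.primeFactors.card + 1) * ∏ p ∈ n.primeFactors, (p - 1)) :=
          Nat.mul_le_mul_left _ h2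
      _ = _ := by ring
  have h6 := Nat.le_of_mul_le_mul_right h5 h4
  exact h6.trans (Nat.mul_le_mul_right _ (Nat.add_le_add_right (BV_omega n hn) 1))

lemma BV_log2 (n : ℕ) (hn : 0 < n) : ((Nat.log 2 n : ℕ) : ℝ) ≤ 2 * Real.log n := by
  have h6 : (2 : ℝ) ^ Nat.log 2 n ≤ n := by exact_mod_cast Nat.pow_log_le_self 2 (by omega)
  have h7 := Real.log_le_log (by positivity) h6
  rw [Real.log_pow] at h7
  have h8 := Real.log_two_gt_d9
  have h9 : (0 : ℝ) ≤ (Nat.log 2 n : ℕ) := Nat.cast_nonneg _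
  nlinarith

lemma BV_sum_inv (M : ℕ) (hM : 1 ≤ M) :
    ∑ n ∈ Icc 1 M, 1 / (Nat.totient n : ℝ) ≤ (1 + 2 * Real.log M) * (1 + Real.log M) := by
  have h1 : ∀ n ∈ Icc 1 M, 1 / (Nat.totient n : ℝ) ≤ (1 + 2 * Real.log M) * (n : ℝ)⁻¹ := by
    intro n hn
    rw [mem_Icc] at hn
    have hn0 : (0 : ℝ) < n := by exact_mod_cast hn.1
    have hφ : (0 : ℝ) < Nat.totient n := by exact_mod_cast Nat.totient_pos.mpr hn.1
    have h2 : (n : ℝ) ≤ ((Nat.log 2 n : ℕ) + 1 : ℝ) * Nat.totient n := by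
      exact_mod_cast BV_phi n hn.1
    have h3 : ((Nat.log 2 n : ℕ) : ℝ) ≤ 2 * Real.log M := by
      have h10 : Real.log n ≤ Real.log M := Real.log_le_log hn0 (by exact_mod_cast hn.2)
      have := BV_log2 n hn.1
      linarith
    rw [div_le_iff₀ hφ, mul_assoc, ← div_eq_inv_mul, ← mul_div_assoc, le_div_iff₀ hn0, one_mul]
    refine h2.trans ?_
    refine mul_le_mul_of_nonneg_right ?_ hφ.le
    linarith
  refine (sum_le_sum h1).trans ?_
  rw [← mul_sum]
  have hlog : 0 ≤ Real.log M := Real.log_natCast_nonneg M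
  refine mul_le_mul_of_nonneg_left ?_ (by linarith)
  have h2 := harmonic_le_one_add_log M
  rw [harmonic_eq_sum_Icc] at h2
  push_cast at h2
  exact h2

/-! ## Orthogonality -/

lemma BV_conj {m : ℕ} (hm : 0 < m) (χ : DirichletCharacter ℂ m) (c : ℕ) (hc : Nat.Coprime c m) :
    (starRingEnd ℂ) (χ (c : ZMod m)) = χ (c : ZMod m)⁻¹ := by
  have : NeZero m := ⟨hm.ne'⟩
  obtain ⟨u, hu⟩ : IsUnit (c : ZMod m) := (ZMod.isUnit_iff_coprime c m).mpr hc
  rw [← hu, ZMod.inv_coe_unit, map_units_inv]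
  exact (Complex.inv_eq_conj (DirichletCharacter.unit_norm_eq_one χ u)).symm

open Classical in
lemma BV_orth {m : ℕ} (hm : 0 < m) (c n : ℕ) (hc : Nat.Coprime c m) :
    (1 / (Nat.totient m : ℝ)) *
      (∑ χ : DirichletCharacter ℂ m, (starRingEnd ℂ) (χ c) * χ n).re =
    if n ≡ c [MOD m] then 1 else 0 := by
  have : NeZero m := ⟨hm.ne'⟩
  have hcu : IsUnit (c : ZMod m) := (ZMod.isUnit_iff_coprime c m).mpr hc
  have hφ : (0 : ℝ) < Nat.totient m := by exact_mod_cast Nat.totient_pos.mpr hm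
  have h1 : ∑ χ : DirichletCharacter ℂ m, (starRingEnd ℂ) (χ c) * χ n =
      if (c : ZMod m) = (n : ZMod m) then (Nat.totient m : ℂ) else 0 := by
    rw [← DirichletCharacter.sum_char_inv_mul_char_eq ℂ hcu]
    exact sum_congr rfl fun χ _ => by rw [BV_conj hm χ c hc]
  have h3 : ((c : ZMod m) = (n : ZMod m)) ↔ n ≡ c [MOD m] := by
    rw [ZMod.natCast_eq_natCast_iff]
    exact ⟨fun h => h.symm, fun h => h.symm⟩
  rw [h1]
  by_cases h : n ≡ c [MOD m]
  · rw [if_pos h, if_pos (h3.mpr h), Complex.natCast_re, one_div, inv_mul_cancel₀ hφ.ne']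
  · rw [if_neg h, if_neg (fun h' => h (h3.mp h')), Complex.zero_re, mul_zero]

lemma BV_step (R m c n : ℕ) : ks (2 * R) m c n = ks R m c n + kp R m c n := by
  classical
  unfold ks kp
  rw [← mul_add, ← Complex.add_re, ← sum_union]
  · congr 3
    ext χ
    simp only [mem_filter, mem_univ, true_and, mem_union]
    omega
  · rw [disjoint_filter]
    intro χ _ h1 h2
    omega

lemma BV_steps (R m c n k : ℕ) :
    ks (R * 2 ^ k) m c n = ks R m c n + ∑ i ∈ range k, kp (R * 2 ^ i) m c n := by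
  induction k with
  | zero => simp
  | succ k ih =>
    rw [sum_range_succ, ← add_assoc, ← ih, ← BV_step]
    congr 1
    ring

lemma BV_full {m : ℕ} (hm : 0 < m) (R c n : ℕ) (hc : Nat.Coprime c m) (hR : m ≤ R) :
    ks R m c n = if n ≡ c [MOD m] then 1 else 0 := by
  classical
  have : NeZero m := ⟨hm.ne'⟩
  rw [← BV_orth hm c n hc]
  unfold ks
  congr 3
  refine filter_true_of_mem fun χ _ => ?_
  exact (Nat.le_of_dvd hm (DirichletCharacter.conductor_dvd_level χ)).trans hR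

theorem BV (h3 : BV3_stmt) (h4 : BV4_stmt) : BV_stmt := by
  intro ε hε hε2 A
  obtain ⟨B, X₃, H3⟩ := h3 ε hε hε2 (A + 2)
  obtain ⟨X₄, H4⟩ := h4 (A + 3) (B + 1)
  refine ⟨max (max X₃ X₄) ⌈Real.exp 12⌉₊, ?_⟩
  intro X hX t ht c hc
  have hX3 : X₃ ≤ X := (le_max_left _ _).trans ((le_max_left _ _).trans hX)
  have hX4 : X₄ ≤ X := (le_max_right _ _).trans ((le_max_left _ _).trans hX)
  have hXe : Real.exp 12 ≤ X := (Nat.le_ceil _).trans (by exact_mod_cast (le_max_right _ _).trans hX)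
  have hXpos : (0 : ℝ) < X := (Real.exp_pos _).trans_le hXe
  have hX0 : 0 < X := by exact_mod_cast hXpos
  have hL : 12 ≤ Real.log X := by
    rw [← Real.log_exp 12]
    exact Real.log_le_log (Real.exp_pos _) hXe
  set L := Real.log X with hLdef
  have hL0 : 0 < L := by linarith
  set Q := ⌊(X : ℝ) ^ (1 / 2 - ε)⌋₊ with hQ
  have hQX : Q ≤ X := by
    have h5 : (X : ℝ) ^ (1 / 2 - ε) ≤ (X : ℝ) ^ (1 : ℝ) := by
      refine Real.rpow_le_rpow_of_exponent_le ?_ (by linarith)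
      exact_mod_cast hX0
    rw [Real.rpow_one] at h5
    exact Nat.floor_le_of_le h5
  set R₀ := ⌈L ^ B⌉₊ with hR₀
  have hR₀1 : 1 ≤ R₀ := Nat.ceil_pos.mpr (by positivity)
  have hR₀L : L ^ B ≤ (R₀ : ℝ) := Nat.le_ceil _
  have hR₀U : (R₀ : ℝ) ≤ L ^ (B + 1) := by
    have h5 := (Nat.ceil_lt_add_one (by positivity : 0 ≤ L ^ B)).le
    have h6 : (1 : ℝ) ≤ L ^ B := one_le_pow₀ (by linarith)
    have h7 : L ^ (B + 1) = L ^ B * L := pow_succ _ _
    rw [h7]
    nlinarith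
  set k := Nat.log 2 X + 1 with hk
  have hkX : X ≤ R₀ * 2 ^ k := by
    have h5 : X < 2 ^ k := Nat.lt_pow_succ_log_self (by norm_num) X
    have h6 : 2 ^ k ≤ R₀ * 2 ^ k := Nat.le_mul_of_pos_left _ hR₀1
    omega
  have hkL : (k : ℝ) ≤ 3 * L := by
    have h5 := BV_log2 X hX0
    rw [hk]
    push_cast
    linarith
  -- pointwise
  have hpt : ∀ m ∈ Icc 1 Q, |∑ n ∈ Ioc 0 t with n ≡ c m [MOD m], vonMangoldt n
      - t / (Nat.totient m : ℝ)| ≤
      (1 / (Nat.totient m : ℝ)) * (X / L ^ (A + 3)) +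
        ∑ i ∈ range k, |∑ n ∈ Ioc 0 t, vonMangoldt n * kp (R₀ * 2 ^ i) m (c m) n| := by
    intro m hm
    rw [mem_Icc] at hm
    have hm0 : 0 < m := hm.1
    have e1 : ∑ n ∈ Ioc 0 t with n ≡ c m [MOD m], vonMangoldt n =
        ∑ n ∈ Ioc 0 t, vonMangoldt n * ks R₀ m (c m) n +
          ∑ i ∈ range k, ∑ n ∈ Ioc 0 t, vonMangoldt n * kp (R₀ * 2 ^ i) m (c m) n := by
      rw [sum_filter, sum_comm, ← sum_add_distrib]
      refine sum_congr rfl fun n _ => ?_
      rw [← mul_sum, ← mul_add, ← BV_steps, BV_full hm0 _ _ _ (hc m hm0) ((hm.2.trans hQX).trans hkX)]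
      split_ifs
      · rw [mul_one]
      · rw [mul_zero]
    rw [e1, add_sub_right_comm]
    refine (abs_add_le _ _).trans (add_le_add ?_ (abs_sum_le_sum_abs _ _))
    refine (H4 X hX4 t ht m (c m) R₀ hm0 (hm.2.trans hQX) (hc m hm0) hR₀1 hR₀U).trans (le_of_eq ?_)
    rw [mul_div_assoc]
  refine (sum_le_sum hpt).trans ?_
  rw [sum_add_distrib, ← sum_mul, sum_comm]
  have hA1 : ∑ i ∈ range k, ∑ m ∈ Icc 1 Q,
      |∑ n ∈ Ioc 0 t, vonMangoldt n * kp (R₀ * 2 ^ i) m (c m) n| ≤ 3 * L * (X / L ^ (A + 2)) := by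
    have h5 : ∀ i ∈ range k, ∑ m ∈ Icc 1 Q,
        |∑ n ∈ Ioc 0 t, vonMangoldt n * kp (R₀ * 2 ^ i) m (c m) n| ≤ X / L ^ (A + 2) := by
      intro i _
      refine H3 X hX3 t ht c hc (R₀ * 2 ^ i) (hR₀L.trans ?_)
      have : R₀ ≤ R₀ * 2 ^ i := Nat.le_mul_of_pos_right _ (by positivity)
      exact_mod_cast this
    refine (sum_le_sum h5).trans ?_
    rw [sum_const, card_range, nsmul_eq_mul]
    exact mul_le_mul_of_nonneg_right hkL (by positivity)
  have hA2 : ∑ m ∈ Icc 1 Q, 1 / (Nat.totient m : ℝ) ≤ 6 * L ^ 2 := by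
    rcases Nat.eq_zero_or_pos Q with h | h
    · rw [h]
      simp only [Icc_eq_empty_of_lt zero_lt_one, sum_empty]
      positivity
    · refine (BV_sum_inv Q h).trans ?_
      have h6 : Real.log Q ≤ L := Real.log_le_log (by exact_mod_cast h) (by exact_mod_cast hQX)
      have h7 : 0 ≤ Real.log Q := Real.log_natCast_nonneg Q
      nlinarith
  have hA3 : (∑ m ∈ Icc 1 Q, 1 / (Nat.totient m : ℝ)) * (X / L ^ (A + 3)) ≤
      6 * L ^ 2 * (X / L ^ (A + 3)) := mul_le_mul_of_nonneg_right hA2 (by positivity)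
  refine (add_le_add hA3 hA1).trans ?_
  have e2 : 6 * L ^ 2 * (X / L ^ (A + 3)) = 6 / L * (X / L ^ A) := by
    rw [pow_add]
    field_simp
  have e3 : 3 * L * (X / L ^ (A + 2)) = 3 / L * (X / L ^ A) := by
    rw [pow_add]
    field_simp
  rw [e2, e3, ← add_mul]
  have h8 : 6 / L + 3 / L ≤ 1 := by
    rw [← add_div, div_le_one hL0]
    linarith
  calc (6 / L + 3 / L) * (X / L ^ A) ≤ 1 * (X / L ^ A) :=
        mul_le_mul_of_nonneg_right h8 (by positivity)
    _ = X / L ^ A := one_mul _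

end GD
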