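import Pool.Agent.helper97.GD.Spec

/-!
# Project GD, row GEN
-/

set_option autoImplicit false

open Filter FirstOrder FirstOrder.Language

namespace Pool.Agent.GD

open Pool.Agent.UnivT

/-- the sum of the absolute values of the coefficients is small -/
theorem GEN_small (hGSM : GSM_stmt) (U : Ultrafilter ℕ) (N : ℕ → ℕ) (hN : Tendsto N (U : Filter ℕ) atTop)
    (l : List ((ℕ → ℤ) × (ℕ → ℤ))) (hl : ∀ x ∈ l, Sm U N x.1) :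
    Sm U N (fun k => (l.map fun x => ((x.1 k).natAbs : ℤ)).sum) := by
  obtain ⟨h1, h2, h3, -, -, -⟩ := hGSM U N hN
  induction l with
  | nil => simpa using h1 0
  | cons x l ih =>
    have hx : Sm U N (fun k => ((x.1 k).natAbs : ℤ)) := by
      intro j
      have := hl x (List.mem_cons_self) j
      filter_upwards [this] with k hk
      simpa [Int.natCast_natAbs, abs_abs] using hk
    have := (h2 _ _ hx (ih fun y hy => hl y (List.mem_cons_of_mem _ hy))).1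
    simpa [List.map_cons, List.sum_cons] using this

theorem GEN_ineq (δ : ℝ) (M m d C w : ℕ) (hδ : 4 ≤ δ * M) (hd : ((2 : ℝ) ^ (2 ^ m) + 1) ^ δ < (d : ℝ))
    (hC : C ^ (M ^ w) ≤ 2 ^ (2 ^ m)) (hmain : d ^ M ≤ C ^ (M ^ w) * 4 ^ (2 ^ m)) : False := by
  have h1 : d ^ M ≤ 2 ^ (2 ^ m) * 4 ^ (2 ^ m) := hmain.trans (Nat.mul_le_mul_right _ hC)
  have hF1 : (1 : ℝ) ≤ (2 : ℝ) ^ (2 ^ m) + 1 := by
    have : (0 : ℝ) < (2 : ℝ) ^ (2 ^ m) := by positivity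
    linarith
  have hF0 : (0 : ℝ) ≤ (2 : ℝ) ^ (2 ^ m) + 1 := by linarith
  have h2 : (((2 : ℝ) ^ (2 ^ m) + 1) ^ δ) ^ M ≤ (d : ℝ) ^ M :=
    pow_le_pow_left₀ (Real.rpow_nonneg hF0 _) hd.le _
  have h3 : (((2 : ℝ) ^ (2 ^ m) + 1) ^ δ) ^ M = ((2 : ℝ) ^ (2 ^ m) + 1) ^ (δ * M) := by
    rw [← Real.rpow_natCast, ← Real.rpow_mul hF0]
  have h4 : ((2 : ℝ) ^ (2 ^ m) + 1) ^ (4 : ℕ) ≤ ((2 : ℝ) ^ (2 ^ m) + 1) ^ (δ * M) := by
    rw [← Real.rpow_natCast]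
    exact Real.rpow_le_rpow_of_exponent_le hF1 (by exact_mod_cast hδ)
  have h5 : (d : ℝ) ^ M ≤ (2 : ℝ) ^ (2 ^ m) * 4 ^ (2 ^ m) := by exact_mod_cast h1
  have h6 : (4 : ℝ) ^ (2 ^ m) = ((2 : ℝ) ^ (2 ^ m)) ^ 2 := by
    rw [← pow_mul, mul_comm, pow_mul]; norm_num
  have h7 : ((2 : ℝ) ^ (2 ^ m) + 1) ^ 4 ≤ (2 : ℝ) ^ (2 ^ m) * ((2 : ℝ) ^ (2 ^ m)) ^ 2 := by
    rw [← h6]
    exact h4.trans (by rw [← h3]; exact h2.trans h5)
  have hx : (1 : ℝ) ≤ (2 : ℝ) ^ (2 ^ m) := one_le_pow₀ (by norm_num)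
  have : (2 : ℝ) ^ (2 ^ m) * ((2 : ℝ) ^ (2 ^ m)) ^ 2 < ((2 : ℝ) ^ (2 ^ m) + 1) ^ 4 := by
    generalize (2 : ℝ) ^ (2 ^ m) = x at hx
    nlinarith [pow_pos (by linarith : (0 : ℝ) < x) 3, pow_pos (by linarith : (0 : ℝ) < x) 2,
      pow_pos (by linarith : (0 : ℝ) < x) 4]
  linarith

theorem GEN (hGPF : GPF_stmt) (hGSM : GSM_stmt) (hGLV : GLV_stmt) : GEN_stmt := by
  intro U m hm n f hf δ hδ
  have hN : Tendsto (fun k => 2 ^ m k) (U : Filter ℕ) atTop :=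
    (tendsto_pow_atTop_atTop_of_one_lt (by norm_num : 1 < 2)).comp hm
  obtain ⟨D, l, hD, hl, hev⟩ := (hGLV U _ hN n).2.2.1 f hf
  have hsm := GEN_small hGSM U _ hN l (fun x hx => (hl x hx).1)
  set M : ℕ := ⌈4 / δ⌉₊ + 1 with hM
  have hM0 : 0 < M := Nat.succ_pos _
  have hδM : 4 ≤ δ * M := by
    have h1 : 4 / δ ≤ (⌈4 / δ⌉₊ : ℝ) := Nat.le_ceil _
    have h2 : (⌈4 / δ⌉₊ : ℝ) ≤ M := by rw [hM]; push_cast; linarith
    have h3 : 4 / δ ≤ (M : ℝ) := h1.trans h2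
    rw [div_le_iff₀ hδ] at h3
    linarith
  have hDev : ∀ᶠ k in (U : Filter ℕ), D ≤ 2 ^ m k := hN.eventually_ge_atTop D
  filter_upwards [hev, hsm (M ^ l.length), hDev] with k hk hC hDk
  by_cases hF : (2 : ℤ) ^ (2 ^ m k) + 1 ∣ f k
  · exact Or.inl hF
  right
  by_contra hcon
  rw [not_le] at hcon
  set d : ℕ := Int.gcd (f k) (2 ^ (2 ^ m k) + 1) with hd
  have hsum : sv l k = ∑ i : Fin l.length, (l[i.1]).1 k * 2 ^ ((l[i.1]).2 k).toNat := by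
    rw [sv, Fin.sum_univ_fun_getElem l (fun x : (ℕ → ℤ) × (ℕ → ℤ) => x.1 k * 2 ^ (x.2 k).toNat)]
  have hsumC : ((∑ i : Fin l.length, ((l[i.1]).1 k).natAbs : ℕ) : ℤ) =
      (l.map fun x => ((x.1 k).natAbs : ℤ)).sum := by
    rw [← Fin.sum_univ_fun_getElem l (fun x : (ℕ → ℤ) × (ℕ → ℤ) => ((x.1 k).natAbs : ℤ))]
    exact Nat.cast_sum _ _
  have hdF : d ∣ 2 ^ (2 ^ m k) + 1 := by
    have : (d : ℤ) ∣ 2 ^ (2 ^ m k) + 1 := Int.gcd_dvd_right _ _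
    exact_mod_cast this
  have hdS : (d : ℤ) ∣ ∑ i : Fin l.length, (l[i.1]).1 k * 2 ^ ((l[i.1]).2 k).toNat := by
    rw [← hsum, ← hk]
    exact Dvd.dvd.mul_left (Int.gcd_dvd_left _ _) _
  have hFS : ¬ ((2 : ℤ) ^ (2 ^ m k) + 1 ∣ ∑ i : Fin l.length, (l[i.1]).1 k * 2 ^ ((l[i.1]).2 k).toNat) := by
    rw [← hsum, ← hk]
    intro h
    exact hF (hGPF (m k) D (f k) hD hDk h)
  have hmain := Pool.Agent.helper8.SF.main (Finset.univ : Finset (Fin l.length))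
    (fun i => ((l[i.1]).2 k).toNat) (fun i => (l[i.1]).1 k) (m k) d M hdF hdS hFS hM0
  rw [Finset.card_univ, Fintype.card_fin] at hmain
  have hC' : (∑ i : Fin l.length, ((l[i.1]).1 k).natAbs) ^ (M ^ l.length) ≤ 2 ^ (2 ^ m k) := by
    rw [← hsumC] at hC
    have hC2 : (((∑ i : Fin l.length, ((l[i.1]).1 k).natAbs : ℕ) : ℤ)) ^ (M ^ l.length) ≤ 2 ^ (2 ^ m k) := by
      rwa [abs_of_nonneg (Int.natCast_nonneg _)] at hC
    exact_mod_cast hC2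
  exact GEN_ineq δ M (m k) d _ l.length hδM hcon hC' hmain

end Pool.Agent.GD
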